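import Pool.Agent.Q298.RandomSets

/-!
# No strong law for independent random convex sets with a common expectation

In the Hilbert space `ℓ²` of finite sign sequences the unit ball is, for every `n`, the average of
two convex sets `A n true`, `A n false`, in such a way that for independent fair choices the
Minkowski averages always stay at Hausdorff distance at least `1/3` from the unit ball.
-/

namespace Pool.Agent.Results.MP_aabed8_pr.SplitBall

open MeasureTheory ProbabilityTheory Q298.RandomSets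
open scoped Pointwise BoundedContinuousFunction InnerProductSpace

/-! ### Splitting the unit ball -/

section Split

variable {H : Type} [NormedAddCommGroup H] [InnerProductSpace ℝ H]

/-- The set with support function `1 + c ⟪Q x, x⟫` on the unit sphere. -/
def splitSet (Q : H →ₗ[ℝ] H) (c : ℝ) : Set H := {a | ∀ x, ‖x‖ = 1 → ⟪a, x⟫_ℝ ≤ 1 + c * ⟪Q x, x⟫_ℝ}

/-- The support point in direction `x`. -/
noncomputable def supp (Q : H →ₗ[ℝ] H) (c : ℝ) (x : H) : H :=
  x + c • ((2 : ℝ) • Q x - ⟪Q x, x⟫_ℝ • x)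

lemma inner_supp (Q : H →ₗ[ℝ] H) (c : ℝ) (x y : H) :
    ⟪supp Q c x, y⟫_ℝ = ⟪x, y⟫_ℝ + c * (2 * ⟪Q x, y⟫_ℝ - ⟪Q x, x⟫_ℝ * ⟪x, y⟫_ℝ) := by
  unfold supp
  rw [inner_add_left, inner_smul_left, inner_sub_left, inner_smul_left, inner_smul_left]
  simp

lemma inner_supp_self (Q : H →ₗ[ℝ] H) (c : ℝ) (x : H) (hx : ‖x‖ = 1) :
    ⟪supp Q c x, x⟫_ℝ = 1 + c * ⟪Q x, x⟫_ℝ := by
  rw [inner_supp, real_inner_self_eq_norm_sq, hx]
  ring

lemma supp_mem (Q : H →ₗ[ℝ] H) (hsym : ∀ x y, ⟪Q x, y⟫_ℝ = ⟪x, Q y⟫_ℝ)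
    (hQ : ∀ x, |⟪Q x, x⟫_ℝ| ≤ ‖x‖ ^ 2) (c : ℝ) (hc : |c| ≤ 1 / 3) (x : H) (hx : ‖x‖ = 1) :
    supp Q c x ∈ splitSet Q c := by
  intro y hy
  rw [inner_supp]
  have hxx : ⟪x, x⟫_ℝ = 1 := by rw [real_inner_self_eq_norm_sq, hx]; norm_num
  have hyy : ⟪y, y⟫_ℝ = 1 := by rw [real_inner_self_eq_norm_sq, hy]; norm_num
  have hxy : ‖x - y‖ ^ 2 = 2 - 2 * ⟪x, y⟫_ℝ := by
    rw [← real_inner_self_eq_norm_sq, inner_sub_left, inner_sub_right, inner_sub_right, hxx, hyy,
      real_inner_comm x y]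
    ring
  have hq : ⟪Q (x - y), x - y⟫_ℝ = ⟪Q x, x⟫_ℝ + ⟪Q y, y⟫_ℝ - 2 * ⟪Q x, y⟫_ℝ := by
    rw [map_sub, inner_sub_left, inner_sub_right, inner_sub_right, hsym y x, real_inner_comm (Q x) y]
    ring
  have h1 := hQ (x - y)
  rw [hxy, hq] at h1
  have h2 := hQ x
  rw [hx] at h2
  have ht : 0 ≤ 1 - ⟪x, y⟫_ℝ := by
    have := sq_nonneg ‖x - y‖
    rw [hxy] at this
    linarith
  obtain ⟨h1a, h1b⟩ := abs_le.mp h1
  obtain ⟨h2a, h2b⟩ := abs_le.mp h2
  obtain ⟨hca, hcb⟩ := abs_le.mp hc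
  set t := ⟪x, y⟫_ℝ
  set qx := ⟪Q x, x⟫_ℝ
  set qy := ⟪Q y, y⟫_ℝ
  set b := ⟪Q x, y⟫_ℝ
  have key : c * (2 * b - qx * t) - c * qy ≤ 1 - t := by
    have h3 : c * (2 * b - qx * t) - c * qy = c * (qx * (1 - t)) - c * (qx + qy - 2 * b) := by ring
    have h4 : |qx * (1 - t)| ≤ 1 - t := by
      rw [abs_mul, abs_of_nonneg ht]
      have : |qx| ≤ 1 := by rw [abs_le]; constructor <;> linarith
      exact mul_le_of_le_one_left ht this
    have h5 : |qx + qy - 2 * b| ≤ 2 * (1 - t) := by rw [abs_le]; constructor <;> linarith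
    have h6 : c * (qx * (1 - t)) ≤ 1 / 3 * (1 - t) := by
      calc c * (qx * (1 - t)) ≤ |c * (qx * (1 - t))| := le_abs_self _
        _ = |c| * |qx * (1 - t)| := abs_mul _ _
        _ ≤ 1 / 3 * (1 - t) := mul_le_mul hc h4 (abs_nonneg _) (by norm_num)
    have h7 : -(c * (qx + qy - 2 * b)) ≤ 1 / 3 * (2 * (1 - t)) := by
      calc -(c * (qx + qy - 2 * b)) ≤ |c * (qx + qy - 2 * b)| := neg_le_abs _
        _ = |c| * |qx + qy - 2 * b| := abs_mul _ _
        _ ≤ 1 / 3 * (2 * (1 - t)) := mul_le_mul hc h5 (abs_nonneg _) (by norm_num)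
    linarith
  linarith

lemma norm_le_of_mem (Q : H →ₗ[ℝ] H) (hQ : ∀ x, |⟪Q x, x⟫_ℝ| ≤ ‖x‖ ^ 2) (c : ℝ)
    (hc : |c| ≤ 1 / 3) (a : H) (ha : a ∈ splitSet Q c) : ‖a‖ ≤ 4 / 3 := by
  by_cases h0 : a = 0
  · rw [h0, norm_zero]; norm_num
  · have hpos : 0 < ‖a‖ := norm_pos_iff.mpr h0
    have hn : ‖(‖a‖⁻¹ • a)‖ = 1 := by
      rw [norm_smul, norm_inv, norm_norm, inv_mul_cancel₀ hpos.ne']
    have h1 := ha _ hn
    rw [inner_smul_right, real_inner_self_eq_norm_sq] at h1
    have h2 : ‖a‖⁻¹ * ‖a‖ ^ 2 = ‖a‖ := by field_simp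
    rw [h2] at h1
    have h3 := hQ (‖a‖⁻¹ • a)
    rw [hn] at h3
    have h4 : c * ⟪Q (‖a‖⁻¹ • a), ‖a‖⁻¹ • a⟫_ℝ ≤ 1 / 3 * 1 := by
      calc c * ⟪Q (‖a‖⁻¹ • a), ‖a‖⁻¹ • a⟫_ℝ ≤ |c * ⟪Q (‖a‖⁻¹ • a), ‖a‖⁻¹ • a⟫_ℝ| := le_abs_self _
        _ = |c| * |⟪Q (‖a‖⁻¹ • a), ‖a‖⁻¹ • a⟫_ℝ| := abs_mul _ _
        _ ≤ 1 / 3 * 1 := mul_le_mul hc (by simpa using h3) (abs_nonneg _) (by norm_num)
    linarith

/-- `splitSet` as a nonempty bounded convex set. -/
noncomputable def splitBC (Q : H →ₗ[ℝ] H) (hQ : ∀ x, |⟪Q x, x⟫_ℝ| ≤ ‖x‖ ^ 2) (c : ℝ)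
    (hc : |c| ≤ 1 / 3) : BC H where
  carrier := splitSet Q c
  nonempty := ⟨0, fun x hx => by
    rw [inner_zero_left]
    have h3 := hQ x
    rw [hx] at h3
    have h4 : -(c * ⟪Q x, x⟫_ℝ) ≤ 1 / 3 * 1 := by
      calc -(c * ⟪Q x, x⟫_ℝ) ≤ |c * ⟪Q x, x⟫_ℝ| := neg_le_abs _
        _ = |c| * |⟪Q x, x⟫_ℝ| := abs_mul _ _
        _ ≤ 1 / 3 * 1 := mul_le_mul hc (by simpa using h3) (abs_nonneg _) (by norm_num)
    linarith⟩
  bounded := (Metric.isBounded_closedBall (x := (0 : H)) (r := 4 / 3)).subset fun a ha => by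
    rw [mem_closedBall_zero_iff]; exact norm_le_of_mem Q hQ c hc a ha
  convex := by
    intro a ha b hb s t hs ht hst x hx
    rw [inner_add_left, inner_smul_left, inner_smul_left]
    simp only [RCLike.conj_to_real]
    calc s * ⟪a, x⟫_ℝ + t * ⟪b, x⟫_ℝ ≤ s * (1 + c * ⟪Q x, x⟫_ℝ) + t * (1 + c * ⟪Q x, x⟫_ℝ) :=
          add_le_add (mul_le_mul_of_nonneg_left (ha x hx) hs)
            (mul_le_mul_of_nonneg_left (hb x hx) ht)
      _ = 1 + c * ⟪Q x, x⟫_ℝ := by rw [← add_mul, hst, one_mul]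

end Split

section Support

variable {H : Type} [NormedAddCommGroup H] [InnerProductSpace ℝ H] [CompleteSpace H]

/-- The vector representing a functional of norm one. -/
noncomputable def vec (f : DualSphere H) : H := (InnerProductSpace.toDual ℝ H).symm f

lemma norm_vec (f : DualSphere H) : ‖vec f‖ = 1 := by
  unfold vec
  rw [LinearIsometryEquiv.norm_map]
  simp

lemma apply_eq (f : DualSphere H) (a : H) : (f : StrongDual ℝ H) a = ⟪a, vec f⟫_ℝ := by
  unfold vec
  rw [real_inner_comm, InnerProductSpace.toDual_symm_apply]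

lemma R_split (Q : H →ₗ[ℝ] H) (hsym : ∀ x y, ⟪Q x, y⟫_ℝ = ⟪x, Q y⟫_ℝ)
    (hQ : ∀ x, |⟪Q x, x⟫_ℝ| ≤ ‖x‖ ^ 2) (c : ℝ) (hc : |c| ≤ 1 / 3) (f : DualSphere H) :
    R (splitBC Q hQ c hc) f = 1 + c * ⟪Q (vec f), vec f⟫_ℝ := by
  rw [R_eval]
  refine IsGreatest.csSup_eq ⟨⟨supp Q c (vec f), supp_mem Q hsym hQ c hc _ (norm_vec f), ?_⟩, ?_⟩
  · rw [apply_eq, inner_supp_self _ _ _ (norm_vec f)]
  · rintro _ ⟨a, ha, rfl⟩
    rw [apply_eq]
    exact ha _ (norm_vec f)

/-- The closed unit ball. -/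
def ballBC (H : Type) [NormedAddCommGroup H] [InnerProductSpace ℝ H] : BC H where
  carrier := Metric.closedBall 0 1
  nonempty := ⟨0, by simp⟩
  bounded := Metric.isBounded_closedBall
  convex := convex_closedBall 0 1

lemma R_ball (f : DualSphere H) : R (ballBC H) f = 1 := by
  rw [R_eval]
  refine IsGreatest.csSup_eq ⟨⟨vec f, ?_, ?_⟩, ?_⟩
  · rw [ballBC, mem_closedBall_zero_iff, norm_vec]
  · rw [apply_eq, real_inner_self_eq_norm_sq, norm_vec]; norm_num
  · rintro _ ⟨a, ha, rfl⟩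
    rw [apply_eq]
    have h1 := real_inner_le_norm a (vec f)
    rw [norm_vec, mul_one] at h1
    exact h1.trans (by simpa [ballBC] using ha)

end Support

/-! ### The sequence space -/

/-- Square summable families indexed by the finite sign sequences. -/
abbrev E : Type := lp (fun _ : List Bool => ℝ) 2

/-- The `n`-th sign of a finite sign sequence (`0` if the sequence is too short). -/
def sg (n : ℕ) (w : List Bool) : ℝ :=
  match w[n]? with
  | some true => 1
  | some false => -1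
  | none => 0

lemma abs_sg_le (n : ℕ) (w : List Bool) : |sg n w| ≤ 1 := by
  unfold sg
  split <;> norm_num

lemma summable_sq (x : E) : Summable fun w => x w * x w := by
  refine (summable_congr fun w => ?_).mp (lp.summable_inner (𝕜 := ℝ) x x)
  simp [sq]

lemma norm_sq_eq (x : E) : ‖x‖ ^ 2 = ∑' w, x w * x w := by
  rw [← real_inner_self_eq_norm_sq, lp.inner_eq_tsum]
  simp [sq]

/-- The diagonal operator with entries `sg n w`. -/
noncomputable def Q (n : ℕ) : E →ₗ[ℝ] E where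
  toFun x := ⟨fun w => sg n w * x w, by
    have h2 : (0 : ℝ) < (2 : ENNReal).toReal := by norm_num
    have hx := (memℓp_gen_iff h2).mp (lp.memℓp x)
    refine (memℓp_gen_iff h2).mpr ?_
    refine Summable.of_nonneg_of_le (fun w => by positivity) (fun w => ?_) hx
    refine Real.rpow_le_rpow (norm_nonneg _) ?_ h2.le
    rw [norm_mul, Real.norm_eq_abs]
    exact mul_le_of_le_one_left (norm_nonneg _) (abs_sg_le n w)⟩
  map_add' x y := by
    ext w
    change sg n w * (x w + y w) = sg n w * x w + sg n w * y w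
    ring
  map_smul' c x := by
    ext w
    change sg n w * (c * x w) = c * (sg n w * x w)
    ring

lemma Q_apply (n : ℕ) (x : E) (w : List Bool) : Q n x w = sg n w * x w := rfl

lemma Q_symm (n : ℕ) (x y : E) : ⟪Q n x, y⟫_ℝ = ⟪x, Q n y⟫_ℝ := by
  rw [lp.inner_eq_tsum, lp.inner_eq_tsum]
  refine tsum_congr fun w => ?_
  rw [Q_apply, Q_apply]
  simp
  ring

lemma inner_Q (n : ℕ) (x : E) : ⟪Q n x, x⟫_ℝ = ∑' w, sg n w * (x w * x w) := by
  rw [lp.inner_eq_tsum]
  refine tsum_congr fun w => ?_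
  rw [Q_apply]
  simp
  ring

lemma Q_bound (n : ℕ) (x : E) : |⟪Q n x, x⟫_ℝ| ≤ ‖x‖ ^ 2 := by
  rw [inner_Q, norm_sq_eq]
  have hs := summable_sq x
  have hs2 : Summable fun w => sg n w * (x w * x w) := by
    refine Summable.of_norm_bounded hs fun w => ?_
    rw [norm_mul, Real.norm_eq_abs, Real.norm_eq_abs, abs_of_nonneg (mul_self_nonneg (x w))]
    exact mul_le_of_le_one_left (mul_self_nonneg _) (abs_sg_le n w)
  rw [abs_le]
  constructor
  · rw [← tsum_neg]
    refine hs.neg.tsum_le_tsum (fun w => ?_) hs2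
    have h1 := (abs_le.mp (abs_sg_le n w)).1
    nlinarith [mul_self_nonneg (x w)]
  · refine hs2.tsum_le_tsum (fun w => ?_) hs
    have h1 := (abs_le.mp (abs_sg_le n w)).2
    nlinarith [mul_self_nonneg (x w)]

/-- The coordinate vector of `w`. -/
noncomputable def e (w : List Bool) : E := lp.single 2 w 1

lemma norm_e (w : List Bool) : ‖e w‖ = 1 := by
  unfold e
  rw [lp.norm_single (by norm_num)]
  simp

lemma inner_Q_e (n : ℕ) (w : List Bool) : ⟪Q n (e w), e w⟫_ℝ = sg n w := by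
  unfold e
  rw [lp.inner_single_right, Q_apply]
  simp

/-! ### The random sets -/

/-- The fair coin. -/
noncomputable def coin : Measure Bool := (PMF.uniformOfFintype Bool).toMeasure

instance : IsProbabilityMeasure coin := PMF.toMeasure.isProbabilityMeasure _

/-- `± 1/3`. -/
noncomputable def cc (b : Bool) : ℝ := if b then 1 / 3 else -1 / 3

lemma abs_cc (b : Bool) : |cc b| ≤ 1 / 3 := by
  cases b <;> simp [cc] <;> norm_num [abs_of_nonneg, abs_of_neg]

/-- The two values of the `n`-th random set. -/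
noncomputable def A (n : ℕ) (b : Bool) : BC E := splitBC (Q n) (Q_bound n) (cc b) (abs_cc b)

/-- There are a B-convex Banach space, a probability space and a uniformly bounded independent
sequence of random convex sets with a common expectation `U` whose Minkowski averages stay at
Hausdorff distance at least `1/3` from `U`, for every outcome and every number of summands. -/
theorem result : ∃ (X : Type) (_ : NormedAddCommGroup X) (_ : NormedSpace ℝ X)
    (_ : CompleteSpace X), BConvex X ∧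
    ∃ (Ω : Type) (_ : MeasurableSpace Ω) (P : Measure Ω) (_ : IsProbabilityMeasure P)
      (Ψ : ℕ → Ω → BC X) (U : BC X),
      (∀ n, Measurable fun ω => R (Ψ n ω)) ∧
      (∃ r : ℝ, ∀ n ω, (Ψ n ω).carrier ⊆ Metric.closedBall 0 r) ∧
      iIndepFun (fun n ω => R (Ψ n ω)) P ∧
      (∀ n, HasExpectation P (Ψ n) U) ∧
      ∀ ω, ∀ n : ℕ, 1 ≤ n →
        1 / 3 ≤ Metric.hausdorffDist (average (fun i => Ψ i ω) n) U.carrier := by
  refine ⟨E, inferInstance, inferInstance, inferInstance, bConvex_of_inner E, ℕ → Bool,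
    inferInstance, Measure.infinitePi fun _ => coin, inferInstance, fun n ω => A n (ω n),
    ballBC E, ?_, ⟨4 / 3, ?_⟩, ?_, ?_, ?_⟩
  · intro n
    exact (measurable_of_finite fun b => R (A n b)).comp (measurable_pi_apply n)
  · intro n ω a ha
    rw [mem_closedBall_zero_iff]
    exact norm_le_of_mem (Q n) (Q_bound n) _ (abs_cc _) a ha
  · exact iIndepFun_infinitePi (X := fun n b => R (A n b)) fun n => measurable_of_finite _
  · intro n
    have hmp := measurePreserving_eval_infinitePi (fun _ : ℕ => coin) n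
    have hint : Integrable (fun b => R (A n b)) coin := Integrable.of_finite
    refine ⟨hmp.integrable_comp_of_integrable hint, ?_⟩
    have h1 : ∫ ω, R (A n (ω n)) ∂(Measure.infinitePi fun _ : ℕ => coin) =
        ∫ b, R (A n b) ∂coin := by
      have h2 := integral_map (f := fun b => R (A n b)) hmp.aemeasurable
        (by rw [hmp.map_eq]; exact hint.aestronglyMeasurable)
      rw [hmp.map_eq] at h2
      exact h2.symm
    rw [h1]
    unfold coin
    rw [PMF.integral_eq_sum]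
    ext f
    simp only [PMF.uniformOfFintype_apply, Fintype.card_bool, Fintype.sum_bool]
    have h2 : ((((2 : ℕ) : ENNReal))⁻¹).toReal = 1 / 2 := by norm_num
    rw [h2]
    simp only [BoundedContinuousFunction.coe_add, BoundedContinuousFunction.coe_smul, Pi.add_apply,
      smul_eq_mul]
    unfold A
    rw [R_split (Q n) (Q_symm n), R_split (Q n) (Q_symm n), R_ball]
    simp only [cc]
    norm_num
    ring
  · intro ω n hn
    set w : List Bool := List.ofFn fun i : Fin n => ω i with hw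
    have hn' : (0 : ℝ) < n := by exact_mod_cast hn
    have hsg : ∀ i < n, cc (ω i) * sg i w = 1 / 3 := by
      intro i hi
      have : w[i]? = some (ω i) := by
        rw [hw, List.getElem?_ofFn]
        simp [hi]
      unfold sg
      rw [this]
      cases ω i <;> simp [cc]
      norm_num
    set y : E := (1 / (n : ℝ)) • ∑ i ∈ Finset.range n, supp (Q i) (cc (ω i)) (e w) with hy
    have hymem : y ∈ average (fun i => A i (ω i)) n :=
      mem_average _ n _ fun i =>
        supp_mem (Q i) (Q_symm i) (Q_bound i) _ (abs_cc _) _ (norm_e w)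
    have hinner : ⟪y, e w⟫_ℝ = 4 / 3 := by
      rw [hy, inner_smul_left, sum_inner]
      have : ∀ i ∈ Finset.range n, ⟪supp (Q i) (cc (ω i)) (e w), e w⟫_ℝ = 4 / 3 := by
        intro i hi
        rw [inner_supp_self _ _ _ (norm_e w), inner_Q_e, hsg i (Finset.mem_range.mp hi)]
        norm_num
      rw [Finset.sum_congr rfl this]
      simp
      field_simp
    have hfin : Metric.hausdorffEDist (average (fun i => A i (ω i)) n) (ballBC E).carrier ≠ ⊤ :=
      Metric.hausdorffEDist_ne_top_of_nonempty_of_bounded ⟨y, hymem⟩ (ballBC E).nonempty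
        (bounded_average _ n) (ballBC E).bounded
    refine le_trans ?_ (Metric.infDist_le_hausdorffDist_of_mem hymem hfin)
    refine (Metric.le_infDist (ballBC E).nonempty).mpr fun b hb => ?_
    have h1 : ⟪y - b, e w⟫_ℝ ≤ ‖y - b‖ := by
      have := real_inner_le_norm (y - b) (e w)
      rwa [norm_e, mul_one] at this
    have h2 : ⟪b, e w⟫_ℝ ≤ 1 := by
      have h3 := real_inner_le_norm b (e w)
      rw [norm_e, mul_one] at h3
      exact h3.trans (by simpa [ballBC] using hb)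
    rw [inner_sub_left, hinner] at h1
    rw [dist_eq_norm]
    linarith

end Pool.Agent.Results.MP_aabed8_pr.SplitBall
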